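import Pool.Agent.helper29.JZ.Spec

/-! Row ED0 of project jz (MP_3221a1_ag) -/

set_option autoImplicit false

open Finset Polynomial Module

namespace Pool.Agent.helper98.JZ

open Pool.Agent.helper29.JZ

theorem jz_ED0 : ED0_stmt := by
  classical
  intro h h' x y M P Q a hy hC he
  obtain ⟨hcop, heq, -⟩ := hC
  rw [he, zero_add] at heq
  have hP : P.natDegree = 0 := by have := le_max_left P.natDegree Q.natDegree; omega
  have hQ : Q.natDegree = 0 := by have := le_max_right P.natDegree Q.natDegree; omega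
  obtain ⟨p, rfl⟩ := natDegree_eq_zero.1 hP
  obtain ⟨q, rfl⟩ := natDegree_eq_zero.1 hQ
  have hsub : HC x y M (C p) (C q) ⊆ PA M := filter_subset _ _
  have h1 : ((PA M ∩ PB M) ∩ HC x y M (C p) (C q)).card ≤ 1 := by
    rw [card_le_one]
    intro z hz z' hz'
    rw [mem_inter, mem_inter] at hz hz'
    have e1 := (mem_filter.1 hz.2).2
    have e2 := (mem_filter.1 hz'.2).2
    rw [eval_C, eval_C] at e1 e2
    have hp : p ≠ 0 := by
      rintro rfl
      rw [zero_mul] at e1
      rw [← e1] at hcop
      obtain ⟨u, v, huv⟩ := hcop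
      rw [C_0, mul_zero, mul_zero, add_zero] at huv
      exact zero_ne_one huv
    have e3 : y z.2 = y z'.2 := mul_left_cancel₀ hp (e1.trans e2.symm)
    have e4 : z.2 = z'.2 := hy e3
    have hB := mem_filter.1 hz.1.2
    have hB' := mem_filter.1 hz'.1.2
    have hr : (M.filter fun w => w.2 = z.2).card ≤ 1 := hB.2.le
    rw [card_le_one] at hr
    exact hr z (mem_filter.2 ⟨hB.1, rfl⟩) z' (mem_filter.2 ⟨hB'.1, e4.symm⟩)
  have h2 : ((PA M ∩ PB M) \ HC x y M (C p) (C q)).card ≤ (PA M \ HC x y M (C p) (C q)).card :=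
    card_le_card (sdiff_subset_sdiff inter_subset_left (Subset.refl _))
  have h3 := card_sdiff_add_card_eq_card hsub
  have h4 := card_inter_add_card_sdiff (PA M ∩ PB M) (HC x y M (C p) (C q))
  omega

end Pool.Agent.helper98.JZ
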